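import Mathlib
import Pool.Agent.H67.FG.Wld

/-!
# FG: MOD gates for prime powers

Lucas: `C(n, p ^ i)` is the `i`-th digit of `n` modulo `p`. So `n % p ^ e = a % p ^ e` is a polynomial of degree
`p ^ e - 1` in the summands of `n` over `ZMod p`.
-/

set_option autoImplicit false

namespace Pool.Agent.H30.FG

open Pool.Agent.H67.FG

variable {Y T : Type} {p : ℕ} [Fact p.Prime]

theorem pow_mem (𝓐 : Alg (ZMod p) Y) {f : Y → ZMod p} {D : ℕ} (hf : f ∈ 𝓐.Deg D) (n : ℕ) :
    f ^ n ∈ 𝓐.Deg (n * D) := by
  induction n with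
  | zero => rw [pow_zero]; exact 𝓐.one _
  | succ n ih =>
    rw [pow_succ, Nat.succ_mul]
    exact 𝓐.mul ih hf

theorem choose_mem (𝓐 : Alg (ZMod p) Y) {b : T → Y → Bool} {D : ℕ} (l : List T)
    (h : ∀ B ∈ l, ind (fun y => b B y = true) ∈ 𝓐.Deg D) (j : ℕ) :
    (fun y => (((l.countP fun B => b B y).choose j : ℕ) : ZMod p)) ∈ 𝓐.Deg (j * D) := by
  induction l generalizing j with
  | nil =>
    rcases j with _ | j
    · simp only [Nat.choose_zero_right, Nat.cast_one]
      exact 𝓐.one _
    · simp only [List.countP_nil, Nat.choose_zero_succ, Nat.cast_zero]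
      exact (𝓐.Deg _).zero_mem
  | cons B l ih =>
    have hl : ∀ B ∈ l, ind (fun y => b B y = true) ∈ 𝓐.Deg D := fun C hC => h C (List.mem_cons_of_mem _ hC)
    have hB := h B List.mem_cons_self
    rcases j with _ | j
    · simp only [Nat.choose_zero_right, Nat.cast_one]
      exact 𝓐.one _
    · have h1 := ih hl (j + 1)
      have h2 := 𝓐.mul hB (ih hl j)
      have h3 : (fun y => ((((B :: l).countP fun B => b B y).choose (j + 1) : ℕ) : ZMod p)) =
          (fun y => (((l.countP fun B => b B y).choose (j + 1) : ℕ) : ZMod p)) +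
          ind (fun y => b B y = true) * (fun y => (((l.countP fun B => b B y).choose j : ℕ) : ZMod p)) := by
        funext y
        simp only [Pi.add_apply, Pi.mul_apply, ind, List.countP_cons]
        split_ifs with hb
        · rw [Nat.choose_succ_succ]
          push_cast
          ring
        · simp
      rw [h3]
      refine (𝓐.Deg _).add_mem h1 (𝓐.mono ?_ h2)
      rw [Nat.succ_mul, add_comm]

theorem choose_pow (n i : ℕ) : ((n.choose (p ^ i) : ℕ) : ZMod p) = ((n / p ^ i : ℕ) : ZMod p) := by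
  have hp : p.Prime := Fact.out
  induction i generalizing n with
  | zero => simp
  | succ i ih =>
    have h := Choose.choose_modEq_choose_mod_mul_choose_div_nat (n := n) (k := p ^ (i + 1)) (p := p)
    have h1 : p ^ (i + 1) % p = 0 := by rw [pow_succ]; exact Nat.mul_mod_left _ _
    have h2 : p ^ (i + 1) / p = p ^ i := by rw [pow_succ]; exact Nat.mul_div_cancel _ hp.pos
    rw [h1, h2, Nat.choose_zero_right, one_mul] at h
    have h3 := (ZMod.natCast_eq_natCast_iff _ _ _).2 h
    rw [h3, ih, pow_succ', Nat.div_div_eq_div_mul]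

theorem mod_pow_iff (n a e : ℕ) : n % p ^ e = a % p ^ e ↔
    ∀ i < e, ((n.choose (p ^ i) : ℕ) : ZMod p) = ((a.choose (p ^ i) : ℕ) : ZMod p) := by
  have hp : p.Prime := Fact.out
  induction e with
  | zero => simp [Nat.mod_one]
  | succ e ih =>
    have hd : ((n.choose (p ^ e) : ℕ) : ZMod p) = ((a.choose (p ^ e) : ℕ) : ZMod p) ↔
        n / p ^ e % p = a / p ^ e % p := by
      rw [choose_pow, choose_pow, ZMod.natCast_eq_natCast_iff]
      rfl
    constructor
    · intro h i hi
      have h1 : n % p ^ e = a % p ^ e := by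
        have hdvd : p ^ e ∣ p ^ (e + 1) := pow_dvd_pow _ (Nat.le_succ e)
        have := congrArg (· % p ^ e) h
        simpa [Nat.mod_mod_of_dvd _ hdvd] using this
      rcases Nat.lt_succ_iff_lt_or_eq.1 hi with h2 | h2
      · exact ih.1 h1 i h2
      · subst h2
        rw [hd]
        rw [Nat.mod_pow_succ, Nat.mod_pow_succ, h1] at h
        have h4 := Nat.add_left_cancel h
        exact Nat.eq_of_mul_eq_mul_left (pow_pos hp.pos _) h4
    · intro h
      have h1 := ih.2 fun i hi => h i (Nat.lt_succ_of_lt hi)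
      have h2 := hd.1 (h e (Nat.lt_succ_self e))
      rw [Nat.mod_pow_succ, Nat.mod_pow_succ, h1, h2]

/-- a MOD gate with a prime power modulus has degree at most `(p ^ e - 1) D` over inputs of degree `D` -/
theorem ind_count_pow (𝓐 : Alg (ZMod p) Y) {b : T → Y → Bool} (l : List T) (D a e : ℕ)
    (h : ∀ B ∈ l, ind (fun y => b B y = true) ∈ 𝓐.Deg D) :
    ind (fun y => (l.countP fun B => b B y) % p ^ e = a % p ^ e) ∈ 𝓐.Deg ((p ^ e - 1) * D) := by
  have hp : p.Prime := Fact.out
  have key : ∀ e : ℕ, ind (fun y => ∀ i < e, ((((l.countP fun B => b B y).choose (p ^ i) : ℕ) : ZMod p) =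
      ((a.choose (p ^ i) : ℕ) : ZMod p))) ∈ 𝓐.Deg ((p ^ e - 1) * D) := by
    intro e
    induction e with
    | zero =>
      have : (ind (fun y => ∀ i < 0, ((((l.countP fun B => b B y).choose (p ^ i) : ℕ) : ZMod p) =
          ((a.choose (p ^ i) : ℕ) : ZMod p))) : Y → ZMod p) = 1 := by
        funext y
        simp [ind]
      rw [this]
      exact 𝓐.one _
    | succ e ih =>
      have h1 := choose_mem 𝓐 l h (p ^ e)
      have h2 : (fun y => (((l.countP fun B => b B y).choose (p ^ e) : ℕ) : ZMod p)) -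
          ((a.choose (p ^ e) : ℕ) : ZMod p) • (1 : Y → ZMod p) ∈ 𝓐.Deg (p ^ e * D) :=
        (𝓐.Deg _).sub_mem h1 ((𝓐.Deg _).smul_mem _ (𝓐.one _))
      have h3 := pow_mem 𝓐 h2 (p - 1)
      have h4 : (1 : Y → ZMod p) - ((fun y => (((l.countP fun B => b B y).choose (p ^ e) : ℕ) : ZMod p)) -
          ((a.choose (p ^ e) : ℕ) : ZMod p) • (1 : Y → ZMod p)) ^ (p - 1) ∈ 𝓐.Deg ((p - 1) * (p ^ e * D)) :=
        (𝓐.Deg _).sub_mem (𝓐.one _) h3
      have h5 := 𝓐.mul ih h4
      have h6 : (ind (fun y => ∀ i < e + 1, ((((l.countP fun B => b B y).choose (p ^ i) : ℕ) : ZMod p) =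
          ((a.choose (p ^ i) : ℕ) : ZMod p))) : Y → ZMod p) =
          ind (fun y => ∀ i < e, ((((l.countP fun B => b B y).choose (p ^ i) : ℕ) : ZMod p) =
          ((a.choose (p ^ i) : ℕ) : ZMod p))) *
          ((1 : Y → ZMod p) - ((fun y => (((l.countP fun B => b B y).choose (p ^ e) : ℕ) : ZMod p)) -
          ((a.choose (p ^ e) : ℕ) : ZMod p) • (1 : Y → ZMod p)) ^ (p - 1)) := by
        funext y
        simp only [ind, Pi.mul_apply, Pi.sub_apply, Pi.one_apply, Pi.pow_apply, Pi.smul_apply, smul_eq_mul,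
          mul_one]
        by_cases hy : (((l.countP fun B => b B y).choose (p ^ e) : ℕ) : ZMod p) =
            ((a.choose (p ^ e) : ℕ) : ZMod p)
        · rw [hy, sub_self, zero_pow (Nat.sub_ne_zero_of_lt hp.one_lt), sub_zero, mul_one]
          congr 1
          apply propext
          constructor
          · intro h i hi
            exact h i (Nat.lt_succ_of_lt hi)
          · intro h i hi
            rcases Nat.lt_succ_iff_lt_or_eq.1 hi with h2 | h2
            · exact h i h2
            · rw [h2]; exact hy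
        · rw [ZMod.pow_card_sub_one_eq_one (sub_ne_zero.2 hy), sub_self, mul_zero]
          rw [if_neg]
          intro h
          exact hy (h e (Nat.lt_succ_self e))
      rw [h6]
      have h7 : (p ^ e - 1) * D + (p - 1) * (p ^ e * D) = (p ^ (e + 1) - 1) * D := by
        have h8 : 1 ≤ p ^ e := Nat.one_le_pow _ _ hp.pos
        have h9 : p ^ (e + 1) - 1 = (p ^ e - 1) + (p - 1) * p ^ e := by
          rw [pow_succ', Nat.sub_mul, one_mul]
          have h10 : p ^ e ≤ p * p ^ e := Nat.le_mul_of_pos_left _ hp.pos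
          omega
        rw [h9, Nat.add_mul]
        ring
      rw [← h7]
      exact h5
  have h1 : (ind (fun y => (l.countP fun B => b B y) % p ^ e = a % p ^ e) : Y → ZMod p) =
      ind (fun y => ∀ i < e, ((((l.countP fun B => b B y).choose (p ^ i) : ℕ) : ZMod p) =
      ((a.choose (p ^ i) : ℕ) : ZMod p))) := by
    congr 1
    funext y
    exact propext (mod_pow_iff _ _ _)
  rw [h1]
  exact key e

end Pool.Agent.H30.FG
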