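import Pool.Agent.H67.FG.Gue
import Pool.Agent.H30.FG.Lucas

/-!
# FG, module DEG for prime powers: the values of the lines are functions of low degree (after helper35)
-/

set_option autoImplicit false

namespace Pool.Agent.H30.FG

open Finset Pool.Agent.H67.FG
open Pool.Agent.H3.Frg (Fm)

section Bas

variable {k Y : Type} [Field k]

/-- products of indicator functions -/
private lemma ind_and (P Q : Y → Prop) : ind (k := k) (fun y => P y ∧ Q y) = ind P * ind Q := by
  funext y
  simp only [ind, Pi.mul_apply]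
  by_cases h1 : P y <;> by_cases h2 : Q y <;> simp [h1, h2]

private lemma ind_not (P : Y → Prop) : ind (k := k) (fun y => ¬ P y) = 1 - ind P := by
  funext y
  simp only [ind, Pi.sub_apply, Pi.one_apply]
  by_cases h1 : P y <;> simp [h1]

private lemma ind_congr {P Q : Y → Prop} (h : ∀ y, P y ↔ Q y) : ind (k := k) P = ind Q := by
  have h1 : P = Q := funext fun y => propext (h y)
  rw [h1]

private lemma ind_mem {P Q : Y → Prop} {S : Submodule k (Y → k)} (h : ∀ y, P y ↔ Q y) (hQ : ind Q ∈ S) :
    ind P ∈ S := by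
  rw [ind_congr h]
  exact hQ

/-- products of indicator functions over a finite set -/
private lemma ind_forall (𝓐 : Alg k Y) {ι : Type} (s : Finset ι) (P : ι → Y → Prop) (D : ℕ)
    (h : ∀ i ∈ s, ind (P i) ∈ 𝓐.Deg D) : ind (fun y => ∀ i ∈ s, P i y) ∈ 𝓐.Deg (s.card * D) := by
  classical
  induction s using Finset.induction_on with
  | empty =>
    have h1 : ind (k := k) (fun y : Y => ∀ i ∈ (∅ : Finset ι), P i y) = 1 := by
      funext y
      simp [ind]
    rw [h1]
    exact 𝓐.one _
  | insert a s ha ih =>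
    have h1 : ind (k := k) (fun y : Y => ∀ i ∈ insert a s, P i y) =
        ind (P a) * ind (fun y => ∀ i ∈ s, P i y) := by
      rw [← ind_and]
      refine ind_congr fun y => ?_
      simp
    rw [h1, card_insert_of_notMem ha]
    refine 𝓐.mono ?_ (𝓐.mul (h a (mem_insert_self _ _)) (ih fun i hi => h i (mem_insert_of_mem hi)))
    rw [Nat.succ_mul, add_comm]

end Bas

variable {V Y : Type} {p : ℕ} [Fact p.Prime]

/-- one gate -/
theorem gate_deg_pow (𝓐 : Alg (ZMod p) Y) {D n : ℕ} (P : Fin n → Y → Bool)
    (h : ∀ i, ind (fun y => P i y = true) ∈ 𝓐.Deg D) (a e : ℕ) (b : Bool) :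
    ind (fun y => decide ((univ.filter fun i => P i y = true).card % p ^ e = a % p ^ e) = b) ∈
      𝓐.Deg ((p ^ e - 1) * D) := by
  have hc : ∀ y, (univ.filter fun i => P i y = true).card = (List.finRange n).countP fun i => P i y := by
    intro y
    have h1 : (univ.filter fun i => P i y = true) = ((List.finRange n).filter fun i => P i y).toFinset := by
      ext i
      simp
    rw [List.countP_eq_length_filter, h1, List.toFinset_card_of_nodup ((List.nodup_finRange n).filter _)]
  have h2 : ind (k := ZMod p) (fun y => (univ.filter fun i => P i y = true).card % p ^ e = a % p ^ e) ∈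
      𝓐.Deg ((p ^ e - 1) * D) := by
    refine ind_mem (fun y => ?_) (ind_count_pow 𝓐 (b := P) (List.finRange n) D a e fun i _ => h i)
    rw [hc]
  cases b with
  | true =>
    refine ind_mem (fun y => ?_) h2
    simp
  | false =>
    have h3 : ind (k := ZMod p) (fun y => decide ((univ.filter fun i => P i y = true).card % p ^ e =
        a % p ^ e) = false) =
        1 - ind (fun y => (univ.filter fun i => P i y = true).card % p ^ e = a % p ^ e) := by
      rw [← ind_not]
      refine ind_congr fun y => ?_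
      simp
    rw [h3]
    exact Submodule.sub_mem _ (𝓐.one _) h2

/-- the value of a subformula of the line `A` has low degree, and it is undecided only in `Z`; the modulus is a
power of the characteristic -/
theorem deg_line_pow (𝓐 : Alg (ZMod p) Y) (e : ℕ) (r : Y → Fm (V ⊕ Bool) → Option Bool)
    (g : Y → Fo V → Bool) (hg1 : ∀ y a n f, g y (.mod a n f) =
      decide ((Finset.univ.filter fun i => g y (f i) = true).card % p ^ e = a % p ^ e))
    (hg2 : ∀ y A, g y A = (r y (tr (g y) A)).getD false) (A : Fo V) (t D0 : ℕ) (ht : A.gates.ncard ≤ t)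
    (hdeg : ∀ (G : Fo V → Bool), ∀ B ∈ A.subs, ∀ b, ind (fun y => r y (tr G B) = b) ∈ 𝓐.Deg D0)
    (hz : ∀ (G : Fo V → Bool), ∀ B ∈ A.subs, ind (fun y => r y (tr G B) = none) ∈ 𝓐.Z)
    (hK : t * ((p ^ e - 1) * D0) + D0 ≤ 𝓐.K) : ∀ B ∈ A.subs,
      ind (fun y => g y B = true) ∈ 𝓐.Deg (t * ((p ^ e - 1) * D0) + D0) ∧
      ind (fun y => r y (tr (g y) B) = none) ∈ 𝓐.Deg (t * ((p ^ e - 1) * D0) + D0) ∧
      ind (fun y => r y (tr (g y) B) = none) ∈ 𝓐.Z := by
  classical
  intro B hB
  -- the gates and the guesses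
  obtain ⟨S, hS⟩ : ∃ S : Finset (Fo V), S = (gates_finite A).toFinset := ⟨_, rfl⟩
  have hSm : ∀ C, C ∈ S ↔ C ∈ A.gates := fun C => by rw [hS, Set.Finite.mem_toFinset]
  have hSc : S.card ≤ t := by
    rw [hS, ← Set.ncard_eq_toFinset_card A.gates (gates_finite A)]
    exact ht
  obtain ⟨G, hG⟩ : ∃ G : Finset (Fo V) → Fo V → Bool, G = fun T C => decide (C ∈ T) := ⟨_, rfl⟩
  -- the value of a formula under a guess
  have hval : ∀ T, ∀ C ∈ A.subs, ind (fun y => (r y (tr (G T) C)).getD false = true) ∈ 𝓐.Deg D0 := by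
    intro T C hC
    refine ind_mem (fun y => ?_) (hdeg (G T) C hC (some true))
    rcases r y (tr (G T) C) with _ | _ | _ <;> simp
  -- consistency of a guess
  have hcons : ∀ T, ∀ C ∈ S, ind (k := ZMod p) (fun y => ∀ a n f, C = Fo.mod a n f →
      decide ((univ.filter fun i => (r y (tr (G T) (f i))).getD false = true).card % p ^ e = a % p ^ e) =
        G T (.mod a n f)) ∈ 𝓐.Deg ((p ^ e - 1) * D0) := by
    intro T C hC
    obtain ⟨hC1, a, n, f, rfl⟩ := (hSm C).1 hC
    have h1 := gate_deg_pow 𝓐 (fun i y => (r y (tr (G T) (f i))).getD false)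
      (fun i => hval T _ (mem_subs_of_mem_mod hC1 i)) a e (G T (.mod a n f))
    refine ind_mem (fun y => ?_) h1
    constructor
    · intro h
      exact h a n f rfl
    · rintro h a' n' f' h'
      injection h' with h2 h3 h4
      subst h2
      subst h3
      cases eq_of_heq h4
      exact h
  obtain ⟨Q, hQ⟩ : ∃ Q : Finset (Fo V) → Y → Prop, Q = fun T y => ∀ C ∈ S, ∀ a n f, C = Fo.mod a n f →
      decide ((univ.filter fun i => (r y (tr (G T) (f i))).getD false = true).card % p ^ e = a % p ^ e) =
        G T (.mod a n f) := ⟨_, rfl⟩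
  have hQD : ∀ T, ind (k := ZMod p) (Q T) ∈ 𝓐.Deg (t * ((p ^ e - 1) * D0)) := by
    intro T
    rw [hQ]
    refine 𝓐.mono (Nat.mul_le_mul_right _ hSc) (ind_forall 𝓐 S (fun C y => ∀ a n f, C = Fo.mod a n f →
      decide ((univ.filter fun i => (r y (tr (G T) (f i))).getD false = true).card % p ^ e = a % p ^ e) =
        G T (.mod a n f)) _
      fun C hC => hcons T C hC)
  have hQg : ∀ T y, Q T y ↔ ∀ C ∈ A.gates, G T C = g y C := by
    intro T y
    rw [← guess_unique (p ^ e) (r y) (hg1 y) (hg2 y) A (G T), hQ]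
    constructor
    · intro h a n f hal
      exact h _ ((hSm _).2 hal) a n f rfl
    · rintro h C hC a n f rfl
      exact h a n f ((hSm _).1 hC)
  -- exactly one guess in the powerset of `S` is consistent
  have hsum : ∀ f : (Fo V → Bool) → Y → Prop, (∀ y G G', (∀ C ∈ A.gates, G C = G' C) → (f G y ↔ f G' y)) →
      ind (k := ZMod p) (fun y => f (g y) y) = ∑ T ∈ S.powerset, ind (Q T) * ind (f (G T)) := by
    intro f hf
    funext y
    rw [Finset.sum_apply]
    obtain ⟨T0, hT0⟩ : ∃ T0 : Finset (Fo V), T0 = S.filter fun C => g y C = true := ⟨_, rfl⟩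
    have hG0 : ∀ C ∈ A.gates, G T0 C = g y C := by
      intro C hC
      rw [hG, hT0]
      simp only [mem_filter, (hSm C).2 hC, true_and, Bool.decide_eq_true]
    rw [sum_eq_single T0]
    · rw [Pi.mul_apply]
      have h1 : Q T0 y := (hQg T0 y).2 hG0
      have h2 : f (g y) y ↔ f (G T0) y := hf y _ _ fun C hC => (hG0 C hC).symm
      simp only [ind, h1, h2, if_true, one_mul]
    · intro T hT hTne
      rw [Pi.mul_apply]
      have h1 : ¬ Q T y := by
        intro h
        apply hTne
        ext C
        have hTS : T ⊆ S := mem_powerset.1 hT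
        rw [hT0, mem_filter]
        constructor
        · intro hC
          have h3 := (hQg T y).1 h C ((hSm C).1 (hTS hC))
          rw [hG] at h3
          simp only [hC, decide_true] at h3
          exact ⟨hTS hC, h3.symm⟩
        · rintro ⟨hC, h4⟩
          have h3 := (hQg T y).1 h C ((hSm C).1 hC)
          rw [hG, h4] at h3
          simpa using h3
      simp [ind, h1]
    · intro h
      exact absurd (mem_powerset.2 (by rw [hT0]; exact filter_subset _ _)) h
  -- gates of `B`
  have hBg : ∀ G G' : Fo V → Bool, (∀ C ∈ A.gates, G C = G' C) → tr G B = tr G' B := fun G G' h =>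
    tr_congr B fun C hC => h C (gates_mono hB hC)
  have h1 : ind (k := ZMod p) (fun y => g y B = true) =
      ∑ T ∈ S.powerset, ind (Q T) * ind (fun y => (r y (tr (G T) B)).getD false = true) := by
    rw [← hsum (fun G y => (r y (tr G B)).getD false = true) fun y G G' h => by rw [hBg G G' h]]
    refine ind_congr fun y => ?_
    rw [hg2 y B]
  have h2 : ind (k := ZMod p) (fun y => r y (tr (g y) B) = none) =
      ∑ T ∈ S.powerset, ind (Q T) * ind (fun y => r y (tr (G T) B) = none) := by
    rw [← hsum (fun G y => r y (tr G B) = none) fun y G G' h => by rw [hBg G G' h]]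
  refine ⟨?_, ?_, ?_⟩
  · rw [h1]
    exact Submodule.sum_mem _ fun T _ => 𝓐.mul (hQD T) (hval T B hB)
  · rw [h2]
    exact Submodule.sum_mem _ fun T _ => 𝓐.mul (hQD T) (hdeg (G T) B hB none)
  · rw [h2]
    exact Submodule.sum_mem _ fun T _ => 𝓐.zmul hK (hQD T) (hdeg (G T) B hB none) (hz (G T) B hB)

end Pool.Agent.H30.FG
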